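import Pool.Agent.H2.ST.Targets

set_option autoImplicit false

namespace Pool.Agent.H63.ST2

open Pool.Agent.H2.ST MvPolynomial

theorem fin_inj {A : Type} [CommRing A] [IsNoetherianRing A] (f : A →+* A)
    (hf : Function.Surjective f) : Function.Injective f := by
  have hs : ∀ (n : ℕ) (x : A), (f ^ (n + 1)) x = (f ^ n) (f x) := fun n x => by
    rw [pow_succ]; rfl
  have hs' : ∀ (n : ℕ) (x : A), (f ^ (n + 1)) x = f ((f ^ n) x) := fun n x => by
    rw [pow_succ']; rfl
  have hmono : Monotone fun n : ℕ => RingHom.ker (f ^ n) := by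
    refine monotone_nat_of_le_succ fun n x hx => ?_
    rw [RingHom.mem_ker] at hx ⊢
    rw [hs', hx, map_zero]
  obtain ⟨n, hn⟩ := monotone_stabilizes_iff_noetherian.2 (inferInstanceAs (IsNoetherian A A))
    ⟨fun n : ℕ => RingHom.ker (f ^ n), hmono⟩
  have hsn : ∀ n : ℕ, Function.Surjective (f ^ n) := by
    intro n
    induction n with
    | zero => intro x; exact ⟨x, rfl⟩
    | succ n ih =>
      intro x
      obtain ⟨y, hy⟩ := hf x
      obtain ⟨z, hz⟩ := ih y
      exact ⟨z, by rw [hs', hz, hy]⟩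
  rw [injective_iff_map_eq_zero]
  intro x hx
  obtain ⟨y, hy⟩ := hsn n x
  have h1 : y ∈ RingHom.ker (f ^ (n + 1)) := by
    rw [RingHom.mem_ker, hs', hy, hx]
  have h2 : RingHom.ker (f ^ n) = RingHom.ker (f ^ (n + 1)) := hn (n + 1) (by omega)
  rw [← h2, RingHom.mem_ker, hy] at h1
  exact h1

theorem fin_ext {k : Type} [Field k] {m : ℕ} (ψ : Pol k m →ₐ[k] Pol k m) (f : Pol k m)
    (hX : ∀ s, ψ (br f (X s)) = br (ψ f) (ψ (X s))) (g : Pol k m) :
    ψ (br f g) = br (ψ f) (ψ g) := by
  induction g using MvPolynomial.induction_on with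
  | C a =>
    have e : ψ (C a) = C a := by
      simp
    rw [e, br_C, br_C, map_zero]
  | add p q hp hq => rw [br_add, map_add, map_add, br_add, hp, hq]
  | mul_X p s hp => rw [br_mul, map_add, map_mul, map_mul, map_mul, br_mul, hp, hX]

theorem pf_FIN : T_FIN := by
  classical
  intro k _ _ m d ρ z w hl hr lr ll rr gen
  have hsurj : Function.Surjective (aeval z : Pol k m →ₐ[k] Pol k m) := by
    intro f
    have := gen f
    rw [Algebra.adjoin_range_eq_range_aeval] at this
    exact this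
  have hinj : Function.Injective (aeval z : Pol k m →ₐ[k] Pol k m) :=
    fin_inj
      ((aeval z : Pol k m →ₐ[k] Pol k m) : Pol k m →+* Pol k m) hsurj
  have hb : ∀ s t, (aeval z : Pol k m →ₐ[k] Pol k m) (br (X s) (X t)) =
      br ((aeval z : Pol k m →ₐ[k] Pol k m) (X s)) ((aeval z : Pol k m →ₐ[k] Pol k m) (X t)) := by
    intro s t
    rw [aeval_X, aeval_X]
    rcases s with i | i <;> rcases t with j | j
    · rw [br_inl, ll, pderiv_X_of_ne (by simp), neg_zero, map_zero]
    · rw [br_inr, lr, pderiv_X]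
      by_cases hij : i = j
      · subst hij; simp
      · rw [if_neg hij, Pi.single_apply, if_neg (by simpa using hij), map_zero]
    · rw [br_inl, br_anti (z (Sum.inr i)) (z (Sum.inl j)), lr, pderiv_X]
      by_cases hij : j = i
      · subst hij; simp
      · rw [if_neg hij, Pi.single_apply, if_neg (by simpa using fun h => hij h.symm), neg_zero,
          map_zero]
    · rw [br_inr, rr, pderiv_X_of_ne (by simp), map_zero]
  have hbr1 : ∀ s g, (aeval z : Pol k m →ₐ[k] Pol k m) (br (X s) g) =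
      br ((aeval z : Pol k m →ₐ[k] Pol k m) (X s)) ((aeval z : Pol k m →ₐ[k] Pol k m) g) :=
    fun s g => fin_ext _ _ (hb s) g
  have hbr : ∀ f g, (aeval z : Pol k m →ₐ[k] Pol k m) (br f g) =
      br ((aeval z : Pol k m →ₐ[k] Pol k m) f) ((aeval z : Pol k m →ₐ[k] Pol k m) g) := by
    intro f g
    refine fin_ext _ _ (fun s => ?_) g
    rw [br_anti, map_neg, hbr1, ← br_anti]
  let e : Pol k m ≃ₐ[k] Pol k m := AlgEquiv.ofBijective (aeval z) ⟨hinj, hsurj⟩
  have he : ∀ f, e f = (aeval z : Pol k m →ₐ[k] Pol k m) f := fun f => rfl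
  have heX : ∀ s, e (X s) = z s := fun s => by rw [he, aeval_X]
  have hes : ∀ s, e.symm (z s) = X s := fun s => by rw [← heX s, AlgEquiv.symm_apply_apply]
  have hmain : ∀ (t : Fin d → kˣ) (s : Fin m ⊕ Fin m) (χ : Fin d → ℤ), z s ∈ Wt ρ χ →
      (e⁻¹ * ρ t * (e⁻¹)⁻¹) (X s) = C ((chr χ t : kˣ) : k) * X s := by
    intro t s χ hs
    rw [inv_inv]
    show e.symm (ρ t (e (X s))) = _
    rw [heX, hs t, map_smul, hes, MvPolynomial.smul_eq_C_mul]
  refine ⟨e⁻¹, ?_, fun t i => ⟨hmain t _ _ (hl i), ?_⟩⟩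
  · intro f g
    show e.symm (br f g) = br (e.symm f) (e.symm g)
    apply e.injective
    rw [AlgEquiv.apply_symm_apply, he, hbr, ← he, ← he, AlgEquiv.apply_symm_apply,
      AlgEquiv.apply_symm_apply]
  · rw [hmain t _ _ (hr i)]
    have : chr (-w i) t = (chr (w i) t)⁻¹ := by
      unfold chr
      rw [← Finset.prod_inv_distrib]
      refine Finset.prod_congr rfl fun j _ => ?_
      rw [Pi.neg_apply, zpow_neg]
    rw [this]

end Pool.Agent.H63.ST2
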