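import Pool.Agent.H2.ST.Targets

set_option autoImplicit false

namespace Pool.Agent.H63.ST2

open Pool.Agent.H2.ST MvPolynomial

theorem br_eval {k : Type} [Field k] {m : ℕ} (P : Polynomial (Pol k m)) (H v : Pol k m)
    (hP : ∀ i, br (P.coeff i) v = 0) :
    br (P.eval H) v = (Polynomial.derivative P).eval H * br H v := by
  rw [Polynomial.derivative_eval, Polynomial.eval_eq_sum, Polynomial.sum, Polynomial.sum, sum_br,
    Finset.sum_mul]
  refine Finset.sum_congr rfl fun i _ => ?_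
  rw [mul_br, hP i, mul_zero, add_zero, br_anti (H ^ i) v, br_pow, br_anti v H]
  ring

theorem pf_OPT (h1 : T_EUL) (h2 : T_SLA) (h3 : T_CON) : T_OPT := by
  intro k _ _ m W r u v hO
  have hrk : ((r : ℤ) : k) ≠ 0 := by
    have := hO.rpos
    exact Int.cast_ne_zero.2 (by omega)
  obtain ⟨H, hH0, hHc, hHE⟩ := h1 k m ℤ W
    ((AddMonoidHom.mulRight ((r : k)⁻¹)).comp (Int.castAddHom k)) hO.toPGr
  have hM : Mom W r u v H := by
    refine ⟨hO, hH0, hHc, ?_⟩
    intro j f hf
    rw [hHE _ f hf]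
    have : ((AddMonoidHom.mulRight ((r : k)⁻¹)).comp (Int.castAddHom k)) (r * j) = (j : k) := by
      show ((r * j : ℤ) : k) * (r : k)⁻¹ = (j : k)
      push_cast
      field_simp
    rw [this]
  obtain ⟨S1, S2⟩ := h2 k m W r u v H hM
  obtain ⟨c, hc, huv, hvu, hK⟩ := h3 k m W r u v H hM S1 S2
  have hv0 : v ≠ 0 := hO.pv.ne_zero
  have hHv : br H v = - v := by
    have := hM.HE (-1) v (by
      have h := hO.hv
      have e : r * (-1 : ℤ) = -r := by ring
      rw [e]; exact h)
    rw [this]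
    simp
  have hG : Gr W := hO.toPGr.toGr
  refine ⟨c, hc, hvu, fun f hf hfu => hK f ⟨hf, hfu⟩, ?_, ?_⟩
  · intro f hf hfv
    obtain ⟨P, hP, hPf⟩ := S1 f hf
    have h4 := br_eval P H v (fun i => hK _ (hP i))
    rw [hPf, hfv, hHv] at h4
    have h5 : (Polynomial.derivative P).eval H = 0 := by
      rcases mul_eq_zero.1 h4.symm with h | h
      · exact h
      · exact absurd (neg_eq_zero.1 h) hv0
    have h6 : Polynomial.derivative P = 0 := by
      refine S2 _ (fun i => ?_) h5
      rw [Polynomial.coeff_derivative]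
      have e : P.coeff (i + 1) * ((i : Pol k m) + 1) = ((i : k) + 1) • P.coeff (i + 1) := by
        rw [MvPolynomial.smul_eq_C_mul]
        simp only [map_add, map_natCast, map_one]
        ring
      rw [e]
      refine ⟨(W 0).smul_mem _ (hP (i + 1)).1, ?_⟩
      rw [smul_br, (hP (i + 1)).2, smul_zero]
    have h7 := Polynomial.eq_C_of_natDegree_eq_zero
      (Polynomial.derivative_eq_zero.1 h6)
    rw [h7, Polynomial.eval_C] at hPf
    rw [← hPf]
    exact (hP 0).2
  · have hu : u ∈ Algebra.adjoin k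
        ({g | g ∈ W 0 ∧ br g u = 0 ∧ br g v = 0} ∪ {u, v}) :=
      Algebra.subset_adjoin (Or.inr (Or.inl rfl))
    have hv : v ∈ Algebra.adjoin k
        ({g | g ∈ W 0 ∧ br g u = 0 ∧ br g v = 0} ∪ {u, v}) :=
      Algebra.subset_adjoin (Or.inr (Or.inr rfl))
    have hH : H ∈ Algebra.adjoin k
        ({g | g ∈ W 0 ∧ br g u = 0 ∧ br g v = 0} ∪ {u, v}) := by
      have e : H = c⁻¹ • (u * v) := by
        rw [huv, MvPolynomial.smul_eq_C_mul, ← mul_assoc, ← C_mul, inv_mul_cancel₀ hc, C_1, one_mul]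
      rw [e]
      exact Subalgebra.smul_mem _ (Subalgebra.mul_mem _ hu hv) _
    have h0 : ∀ g ∈ W 0, g ∈ Algebra.adjoin k
        ({g | g ∈ W 0 ∧ br g u = 0 ∧ br g v = 0} ∪ {u, v}) := by
      intro g hg
      obtain ⟨P, hP, hPf⟩ := S1 g hg
      rw [← hPf, Polynomial.eval_eq_sum, Polynomial.sum]
      refine Subalgebra.sum_mem _ fun i _ => Subalgebra.mul_mem _ ?_ (Subalgebra.pow_mem _ hH _)
      exact Algebra.subset_adjoin (Or.inl ⟨(hP i).1, (hP i).2, hK _ (hP i)⟩)
    have he : ∀ (e : ℤ), ∀ f ∈ W e, f ∈ Algebra.adjoin k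
        ({g | g ∈ W 0 ∧ br g u = 0 ∧ br g v = 0} ∪ {u, v}) := by
      intro e f hf
      by_cases hre : r ∣ e
      · obtain ⟨j, hj⟩ := hre
        rcases le_total 0 j with hj0 | hj0
        · obtain ⟨n, rfl⟩ := Int.eq_ofNat_of_zero_le hj0
          rw [hj] at hf
          obtain ⟨g, hg, hfg⟩ := hO.du n f hf
          rw [hfg]
          exact Subalgebra.mul_mem _ (Subalgebra.pow_mem _ hu _) (h0 g hg)
        · obtain ⟨n, hn⟩ := Int.eq_ofNat_of_zero_le (show 0 ≤ -j by omega)
          have e2 : e = -(r * (n : ℤ)) := by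
            rw [hj, show j = -(n : ℤ) by omega]
            ring
          rw [e2] at hf
          obtain ⟨g, hg, hfg⟩ := hO.dv n f hf
          rw [hfg]
          exact Subalgebra.mul_mem _ (Subalgebra.pow_mem _ hv _) (h0 g hg)
      · rw [hO.dz e hre f hf]
        exact Subalgebra.zero_mem _
    intro f
    rw [← cmp_sum hG f]
    unfold Finsupp.sum
    exact Subalgebra.sum_mem _ fun e _ => he e _ (cmp_mem hG f e)

end Pool.Agent.H63.ST2
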